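import Mathlib

set_option autoImplicit false

/-! Facts on bitwise operations. -/

namespace Pool.Agent.Helper522.Oct

theorem add_xor_and (a b : ℕ) : a + b = (a ^^^ b) + 2 * (a &&& b) := by
  induction a using Nat.strong_induction_on generalizing b with
  | _ a ih =>
    by_cases ha : a = 0
    · subst ha; simp
    · have h := ih (a / 2) (by omega) (b / 2)
      have h1 := @Nat.xor_div_two a b
      have h2 := @Nat.xor_mod_two_eq a b
      have h3 := @Nat.and_div_two a b
      have h4 := @Nat.and_mod_two_eq_one a b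
      rw [← h1, ← h3] at h
      omega

theorem xor_two {X Y p q : ℕ} (hp : p < 2) (hq : q < 2) :
    (2 * X + p) ^^^ (2 * Y + q) = 2 * (X ^^^ Y) + (p + q) % 2 := by
  have h1 := @Nat.xor_div_two (2 * X + p) (2 * Y + q)
  have h2 := @Nat.xor_mod_two_eq (2 * X + p) (2 * Y + q)
  have h3 : (2 * X + p) / 2 = X := by omega
  have h4 : (2 * Y + q) / 2 = Y := by omega
  rw [h3, h4] at h1
  omega

theorem xor_split {X Y Z p q t : ℕ} (hp : p < 2) (hq : q < 2) (ht : t < 2)
    (H : (2 * X + p) ^^^ (2 * Y + q) = 2 * Z + t) : X ^^^ Y = Z ∧ (p + q) % 2 = t := by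
  rw [xor_two hp hq] at H
  omega

theorem xor_ne_256 {u v : ℕ} (hu : u < 256) (hv : v < 256) : u ^^^ v ≠ 256 := by
  have := @Nat.xor_lt_two_pow u v 8 (by omega) (by omega)
  omega

theorem xor_and_and (a b : ℕ) : (a &&& b) &&& (a ^^^ b) = 0 := by
  apply Nat.eq_of_testBit_eq
  intro i
  simp only [Nat.testBit_and, Nat.testBit_xor, Nat.zero_testBit]
  cases a.testBit i <;> cases b.testBit i <;> rfl

theorem and_mod_128 {D z : ℕ} (hz : z < 128) (H : D &&& z = 0) : (D % 128) &&& z = 0 := by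
  have h1 := @Nat.and_mod_two_pow D z 7
  rw [H] at h1
  have h2 : z % 2 ^ 7 = z := Nat.mod_eq_of_lt (by omega)
  rw [h2] at h1
  have h3 : (2 : ℕ) ^ 7 = 128 := by norm_num
  rw [h3] at h1
  omega

theorem and_le_right' (a b : ℕ) : a &&& b ≤ b := Nat.and_le_right

theorem and_and_self (a b : ℕ) : (a &&& b) &&& b = a &&& b := by
  rw [Nat.and_assoc, Nat.and_self]

theorem xor_cancel {a b c : ℕ} (H : a ^^^ b = c) : a ^^^ c = b := by
  rw [← H, ← Nat.xor_assoc, Nat.xor_self, Nat.zero_xor]

theorem add_eq_xor_of_and {a b : ℕ} (H : a &&& b = 0) : a ^^^ b = a + b := by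
  have := add_xor_and a b
  rw [H] at this
  omega

end Pool.Agent.Helper522.Oct
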