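import Pool.Agent.Helper522.Oct.Data

set_option autoImplicit false

/-! Finite checks. -/

namespace Pool.Agent.Helper522.Oct

/-- Boolean disjunction over a list. -/
def exL (l : List ℕ) (f : ℕ → Bool) : Bool := List.rec false (fun a _ acc => f a || acc) l

theorem exL_spec {l : List ℕ} {f : ℕ → Bool} (H : exL l f = true) : ∃ i ∈ l, f i = true := by
  induction l with
  | nil => exact absurd H (by simp [exL])
  | cons a l ih =>
    have H' : (f a || exL l f) = true := H
    rw [Bool.or_eq_true] at H'
    rcases H' with h1 | h1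
    · exact ⟨a, by simp, h1⟩
    · obtain ⟨i, hi, hf⟩ := ih h1
      exact ⟨i, by simp [hi], hf⟩

/-- Boolean conjunction over a list. -/
def allL (l : List ℕ) (f : ℕ → Bool) : Bool := List.rec true (fun a _ acc => f a && acc) l

theorem allL_spec {l : List ℕ} {f : ℕ → Bool} (H : allL l f = true) : ∀ i ∈ l, f i = true := by
  induction l with
  | nil => simp
  | cons a l ih =>
    have H' : (f a && allL l f) = true := H
    rw [Bool.and_eq_true] at H'
    intro i hi
    rcases List.mem_cons.mp hi with h1 | h1
    · rw [h1]; exact H'.1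
    · exact ih H'.2 i h1

/-! same parity -/
def chkSame : Bool :=
  all 255 fun d' => all 80 fun yy =>
    R1b (80 * (d' + 1) + yy - yy % 2) || R1b (80 * (d' + 1) + yy - (78 + yy % 2))

theorem chkSame_true : chkSame = true := by decide +kernel

/-! opposite parity -/
def candE : List ℕ := [1, 79, 53, 71, 73]
def candO : List ℕ := [0, 78, 52, 70, 72]

def sp14 (d yy : ℕ) : Bool := ex 7 fun i => Nat.beq (d + x i) 255 && (Nat.beq yy (y i) || Nat.beq yy (y i + 1))

def sp8 (d yy : ℕ) : Bool :=
  (Nat.beq d 29 && (Nat.beq yy 59 || Nat.beq yy 60)) ||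
  (Nat.beq d 46 && (Nat.beq yy 63 || Nat.beq yy 64)) ||
  (Nat.beq d 50 && (Nat.beq yy 3 || Nat.beq yy 4)) ||
  (Nat.beq d 59 && (Nat.beq yy 47 || Nat.beq yy 48))

def oppTest (d yy c : ℕ) : Bool := Nat.blt c (80 * d + yy) && R1b (80 * d + yy - c)

def chkOpp : Bool :=
  all 256 fun d => all 80 fun yy =>
    (bif Nat.beq (yy % 2) 0 then exL candE (oppTest d yy) else exL candO (oppTest d yy)) ||
      sp14 d yy || sp8 d yy || (Nat.beq d 0 && Nat.beq yy 0)

theorem chkOpp_true : chkOpp = true := by decide +kernel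

end Pool.Agent.Helper522.Oct
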