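import Pool.Agent.Helper522.Oct.Chk

set_option autoImplicit false

/-! More finite checks. -/

namespace Pool.Agent.Helper522.Oct

/-- witness columns for splitting moves -/
def W : List (ℕ × ℕ) :=
  [(15383, 52), (11361, 10), (12241, 18), (13121, 42), (11681, 10), (10481, 17), (13943, 18),
   (13201, 49), (14423, 35), (14081, 10), (11681, 35), (10881, 18), (15383, 74), (10641, 17),
   (12401, 14), (11521, 21), (13601, 10)]

def covTest (i t Xp r ya : ℕ) : Bool :=
  Nat.ble (r + ya) ((255 - x i) * 80 + y i + t) &&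
    Nat.ble 1 (((255 - x i) * 80 + y i + t - r - ya) / 160) &&
    Nat.blt (((255 - x i) * 80 + y i + t - r - ya) / 160 + Xp) 256 &&
    Nat.beq (Nat.land (((255 - x i) * 80 + y i + t - r - ya) / 160) Xp) 0 &&
    Nat.blt (((255 - x i) * 80 + y i + t - r - ya) % 160) 80 &&
    safe (((255 - x i) * 80 + y i + t - r - ya) % 160)

def chkCov : Bool :=
  all 7 fun i => all 2 fun t => all (x i) fun Xp => W.any fun w => covTest i t Xp w.1 w.2

theorem chkCov_true : chkCov = true := by decide +kernel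

theorem W_spec : ∀ w ∈ W, w.1 ∈ R2L ∧ w.1 % 2 = 1 ∧ safe w.2 = true ∧ w.2 < 80 := by decide +kernel

def chkA : Bool :=
  allL R2L fun r => all 7 fun i => all 2 fun t =>
    !(Nat.beq (Nat.land (((20400 - 80 * x i + y i + t + 61440 - r) % 20480) / 160) (x i)) 0)

theorem chkA_true : chkA = true := by decide +kernel

def FB (r j t : ℕ) : ℕ := ((80 * (x j + 1) + 61440 + 79 - y j - t - r) % 20480) / 160

def chkB : Bool :=
  allL R2L fun r => all 7 fun j => all 2 fun t =>
    !(Nat.beq (Nat.land (FB r j t) (x j)) (FB r j t))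

theorem chkB_true : chkB = true := by decide +kernel

def chkC : Bool :=
  allL R2L fun r => all 7 fun i => all 7 fun j => all 7 fun k =>
    !(Nat.beq (Nat.xor (x j) (x k)) (x i)) ||
    (all 2 fun t1 => all 2 fun t2 =>
      !(Nat.beq ((s j + t1 + s k + t2 + r) % 20480) ((s i + (t1 + t2) % 2) % 20480)) ||
      (Nat.beq r (rel i) && Nat.blt (t1 + t2) 2 &&
        ((Nat.beq j ((i + 3) % 7) && Nat.beq k ((i + 2) % 7)) ||
         (Nat.beq j ((i + 2) % 7) && Nat.beq k ((i + 3) % 7)))))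

theorem chkC_true : chkC = true := by decide +kernel

theorem R2L_odd : ∀ r ∈ R2L, r % 2 = 1 ∧ 37 ≤ r ∧ r ≤ 41069 := by decide +kernel

theorem rel_mem : ∀ i < 7, rel i ∈ R2L := by decide +kernel

theorem rel_eq : ∀ i < 7, rel i + s ((i + 3) % 7) + s ((i + 2) % 7) = 20480 * sg i + s i := by
  decide +kernel

theorem r0_eq : ∀ i < 7, s i + r0 i = h i + 20480 := by decide +kernel

theorem r0_R1 : ∀ i < 7, R1b (r0 i) = true := by decide +kernel

theorem R1b_one : R1b 1 = true := by decide +kernel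

theorem x_bd : ∀ i < 7, 11 ≤ x i ∧ x i ≤ 58 := by decide +kernel

theorem x_inj : ∀ i < 7, ∀ j < 7, x i = x j → i = j := by decide +kernel

theorem y_bd : ∀ i < 7, 11 ≤ y i ∧ y i ≤ 75 ∧ y i % 2 = 1 := by decide +kernel

theorem s_sep : ∀ i < 7, ∀ j < 7, i = j ∨ s i + 1 < s j ∨ s j + 1 < s i := by
  decide +kernel

theorem h_sep : ∀ i < 7, ∀ j < 7, i = j ∨ h i + 1 < h j ∨ h j + 1 < h i := by
  decide +kernel

theorem h_bd : ∀ i < 7, 906 ≤ h i ∧ h i ≤ 4678 ∧ h i % 2 = 0 ∧ h i / 80 = x i ∧ 6 ≤ h i % 80 ∧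
    h i % 80 ≤ 50 := by decide +kernel

theorem x_rel : ∀ i < 7, Nat.xor (x ((i + 3) % 7)) (x ((i + 2) % 7)) = x i := by decide +kernel

theorem sg_bd : ∀ i < 7, 1 ≤ sg i ∧ sg i ≤ 3 := by decide +kernel

end Pool.Agent.Helper522.Oct
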