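import Pool.Agent.Helper522.Oct.Excl2

set_option autoImplicit false

/-! Every smaller value is the value of an option. -/

namespace Pool.Agent.Helper522.Oct

/-- the octal game -/
def M (r : ℕ) : Finset ℕ :=
  (if 1 ≤ r ∧ r < 20480 ∧ 2 * (r / 80) + r % 2 ≠ 0 then {0} else ∅) ∪
    ((if R1b r = true then {1} else ∅) ∪ (if r ∈ R2L then {2} else ∅))

theorem mem0 (r : ℕ) : 0 ∈ M r ↔ 1 ≤ r ∧ r < 20480 ∧ 2 * (r / 80) + r % 2 ≠ 0 := by
  unfold M
  split_ifs <;> simp_all

theorem mem1 (r : ℕ) : 1 ∈ M r ↔ R1b r = true := by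
  unfold M
  split_ifs <;> simp_all

theorem mem2 (r : ℕ) : 2 ∈ M r ↔ r ∈ R2L := by
  unfold M
  split_ifs <;> simp_all

theorem M_sub (r : ℕ) : M r ⊆ ({0, 1, 2} : Finset ℕ) := by
  intro a ha
  unfold M at ha
  rw [Finset.mem_union, Finset.mem_union] at ha
  rcases ha with h | h | h <;> split_ifs at h <;> simp_all

theorem M_empty (r : ℕ) (hr : 50000 ≤ r) : M r = ∅ := by
  have h1 : ¬ (1 ≤ r ∧ r < 20480 ∧ 2 * (r / 80) + r % 2 ≠ 0) := by omega
  have h2 : ¬ R1b r = true := fun H => by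
    have := R1b_range H
    omega
  have h3 : ¬ r ∈ R2L := fun H => by
    have := R2L_odd r H
    omega
  unfold M
  rw [if_neg h1, if_neg h2, if_neg h3]
  simp

/-- `v` is the value of an option of the heap `n` -/
def Opt (G : ℕ → ℕ) (n v : ℕ) : Prop :=
  ∃ r : ℕ, 1 ≤ r ∧ r ≤ n ∧
    ((0 ∈ M r ∧ r = n ∧ v = 0) ∨
     (1 ∈ M r ∧ r < n ∧ v = G (n - r)) ∨
     (2 ∈ M r ∧ ∃ a b : ℕ, 1 ≤ a ∧ 1 ≤ b ∧ r + a + b = n ∧
        v = Nat.xor (G a) (G b)))

variable {U : ℕ → ℕ → Prop}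

theorem opt0 {G : ℕ → ℕ} {n : ℕ} (h1 : 1 ≤ n) (h2 : n < 20480) (h3 : 2 * (n / 80) + n % 2 ≠ 0) :
    Opt G n 0 := ⟨n, h1, le_rfl, Or.inl ⟨(mem0 n).mpr ⟨h1, h2, h3⟩, rfl, rfl⟩⟩

theorem opt1 {G : ℕ → ℕ} {n a r v : ℕ} (h1 : 1 ≤ a) (h2 : a + r = n) (h3 : R1b r = true)
    (h4 : G a = v) : Opt G n v := by
  have := R1b_range h3
  refine ⟨r, by omega, by omega, Or.inr (Or.inl ⟨(mem1 r).mpr h3, by omega, ?_⟩)⟩
  rw [← h4]
  congr 1
  omega

theorem opt2 {G : ℕ → ℕ} {n a b r v : ℕ} (h1 : 1 ≤ a) (h2 : 1 ≤ b) (h3 : r + a + b = n)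
    (h4 : r ∈ R2L) (h5 : G a ^^^ G b = v) : Opt G n v := by
  have := R2L_odd r h4
  exact ⟨r, by omega, by omega, Or.inr (Or.inr ⟨(mem2 r).mpr h4, a, b, h1, h2, h3, h5.symm⟩)⟩

theorem safe_spec {c : ℕ} (H : safe c = true) :
    ∀ i < 7, c ≠ y i ∧ c ≠ y i + 1 ∧ c ≠ h i % 80 ∧ c ≠ h i % 80 + 1 := by
  intro i hi
  have H1 := all_spec H i hi
  simp only [Bool.and_eq_true, Bool.not_eq_true', beqF] at H1
  exact ⟨H1.1.1.1, H1.1.1.2, H1.1.2, H1.2⟩

theorem rg_of_safe {n c : ℕ} (H : safe c = true) (hc : n % 80 = c) : Rg U n := by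
  have H1 := safe_spec H
  constructor
  · rintro i t ⟨hi, ht, e, -⟩
    have := y_bd i hi
    have := H1 i hi
    unfold s at e
    omega
  · rintro i t ⟨hi, ht, e, -⟩
    have := h_bd i hi
    have := H1 i hi
    omega

theorem g_safe {q X c : ℕ} (H : safe c = true) (hc : c < 80) (hX : X < 256) :
    g U (20480 * q + 80 * X + c) = 2 * X + c % 2 := by
  rw [g_rg (rg_of_safe H (by omega))]
  omega

theorem chkSame_spec {d z : ℕ} (h1 : 1 ≤ d) (h2 : d ≤ 255) (hz : z < 80) :
    R1b (80 * d + z - z % 2) = true ∨ R1b (80 * d + z - (78 + z % 2)) = true := by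
  have H := all_spec (all_spec chkSame_true (d - 1) (by omega)) z hz
  rw [Bool.or_eq_true, show d - 1 + 1 = d by omega] at H
  exact H

theorem safe_small : safe 0 = true ∧ safe 1 = true ∧ safe 78 = true ∧ safe 79 = true := by
  decide +kernel

theorem visSame {n q X d z : ℕ} (hn : n = 20480 * q + 80 * X + 80 * d + z) (hX : X < 256)
    (h1 : 1 ≤ d) (h2 : d ≤ 255) (hz : z < 80) (hpos : 1 ≤ q + X + z % 2) :
    Opt (g U) n (2 * X + z % 2) := by
  obtain ⟨s0, s1, s2, s3⟩ := safe_small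
  rcases chkSame_spec h1 h2 hz with H | H
  · refine opt1 (a := 20480 * q + 80 * X + z % 2) (by omega) (by omega) H ?_
    rw [g_safe _ (by omega) hX]
    · omega
    · rcases Nat.mod_two_eq_zero_or_one z with h | h <;> rw [h] <;> assumption
  · refine opt1 (a := 20480 * q + 80 * X + (78 + z % 2)) (by omega) (by omega) H ?_
    rw [g_safe _ (by omega) hX]
    · omega
    · rcases Nat.mod_two_eq_zero_or_one z with h | h <;> rw [h] <;> assumption

theorem candE_spec : ∀ c ∈ candE, safe c = true ∧ c < 80 ∧ c % 2 = 1 := by decide +kernel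
theorem candO_spec : ∀ c ∈ candO, safe c = true ∧ c < 80 ∧ c % 2 = 0 := by decide +kernel

theorem chkOpp_spec {d z : ℕ} (h2 : d ≤ 255) (hz : z < 80)
    (h14 : sp14 d z = false) (h8 : sp8 d z = false) (h0 : ¬ (d = 0 ∧ z = 0)) :
    ∃ c, safe c = true ∧ c < 80 ∧ c % 2 = (z + 1) % 2 ∧ c < 80 * d + z ∧
      R1b (80 * d + z - c) = true := by
  have H := all_spec (all_spec chkOpp_true d (by omega)) z hz
  rw [h14, h8, Bool.or_false, Bool.or_false, Bool.or_eq_true, Bool.and_eq_true, beqT, beqT] at H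
  rcases H with H | H
  · by_cases hz2 : z % 2 = 0
    · rw [hz2] at H
      have H' : exL candE (oppTest d z) = true := H
      obtain ⟨c, hc, hf⟩ := exL_spec H'
      obtain ⟨c1, c2, c3⟩ := candE_spec c hc
      unfold oppTest at hf
      rw [Bool.and_eq_true, Nat.blt_eq] at hf
      exact ⟨c, c1, c2, by omega, hf.1, hf.2⟩
    · have hz3 : z % 2 = 1 := by omega
      rw [hz3] at H
      have H' : exL candO (oppTest d z) = true := H
      obtain ⟨c, hc, hf⟩ := exL_spec H'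
      obtain ⟨c1, c2, c3⟩ := candO_spec c hc
      unfold oppTest at hf
      rw [Bool.and_eq_true, Nat.blt_eq] at hf
      exact ⟨c, c1, c2, by omega, hf.1, hf.2⟩
  · exact absurd H h0

theorem visOpp {n q X d z : ℕ} (hn : n = 20480 * q + 80 * X + 80 * d + z) (hX : X < 256)
    (h2 : d ≤ 255) (hz : z < 80) (h14 : sp14 d z = false) (h8 : sp8 d z = false)
    (h0 : ¬ (d = 0 ∧ z = 0)) (hpos : 1 ≤ q + X + (z + 1) % 2) :
    Opt (g U) n (2 * X + (z + 1) % 2) := by
  obtain ⟨c, c1, c2, c3, c4, c5⟩ := chkOpp_spec h2 hz h14 h8 h0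
  refine opt1 (a := 20480 * q + 80 * X + c) (by omega) (by omega) c5 ?_
  rw [g_safe c1 c2 hX, c3]

theorem sp14_spec {d z : ℕ} (H : sp14 d z = true) :
    ∃ i < 7, d + x i = 255 ∧ (z = y i ∨ z = y i + 1) := by
  obtain ⟨i, hi, hf⟩ := ex_spec H
  rw [Bool.and_eq_true, Bool.or_eq_true, beqT, beqT, beqT] at hf
  exact ⟨i, hi, hf⟩

theorem sp8_spec {d z : ℕ} (H : sp8 d z = true) :
    (d = 29 ∧ (z = 59 ∨ z = 60)) ∨ (d = 46 ∧ (z = 63 ∨ z = 64)) ∨
    (d = 50 ∧ (z = 3 ∨ z = 4)) ∨ (d = 59 ∧ (z = 47 ∨ z = 48)) := by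
  unfold sp8 at H
  simp only [Bool.or_eq_true, Bool.and_eq_true, beqT] at H
  tauto

theorem lt7 {i : ℕ} (hi : i < 7) : i = 0 ∨ i = 1 ∨ i = 2 ∨ i = 3 ∨ i = 4 ∨ i = 5 ∨ i = 6 := by
  omega

/-- the eight positions where the distinguished move is needed -/
theorem visSp8_aux {n q X d z c r k t r' : ℕ} (hn : n = 20480 * q + 80 * X + 80 * d + z)
    (hXd : X + d ≤ 255) (hz : z < 80) (hd : 1 ≤ d) (hc : c < 80) (hr : r + c = 80 * d + z)
    (hR : R1b r = true) (hp : c % 2 = (z + 1) % 2) (hpos : 1 ≤ q + X + (z + 1) % 2)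
    (hk : k < 7) (ht : t < 2) (hh : h k = 80 * x k + (c - t)) (htc : t ≤ c) (htp : c % 2 = t)
    (huniq : ∀ i < 7, ∀ t' < 2, (h i + t') % 80 = c → i = k ∧ t' = t)
    (hR' : R1b r' = true) (hr' : s k + t + r' = 20480 + 80 * x k + 80 * d + z) :
    Opt (g U) n (2 * X + (z + 1) % 2) := by
  rcases trich U (20480 * q + 80 * X + c) with ⟨i, t', Ha⟩ | ⟨i, t', Ha⟩ | Ha
  · exfalso
    have h1 := Ha.2.2.1
    have h2 := y_bd i Ha.1
    unfold s at h1
    omega
  · obtain ⟨i1, i2, i3, i4, i5⟩ := Ha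
    obtain ⟨rfl, rfl⟩ := huniq i i1 t' i2 (by omega)
    have hX : X = x i := by omega
    subst hX
    have hb := y_bd i i1
    refine opt1 (a := 20480 * (q - 1) + (s i + t')) (by unfold s; omega) (by omega) hR' ?_
    rw [g_on (i := i) (t := t') ⟨i1, i2, ?_, ?_⟩]
    · omega
    · unfold s; omega
    · have : (20480 * (q - 1) + (s i + t')) / 20480 =
        (20480 * q + 80 * x i + c) / 20480 - 1 := by unfold s; omega
      rw [this]; exact i5
  · refine opt1 (a := 20480 * q + 80 * X + c) (by omega) (by omega) hR ?_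
    rw [g_rg Ha]
    omega

theorem huniq_chk : ∀ p ∈ [(28, 2, 0), (29, 2, 1), (50, 5, 0), (51, 5, 1), (38, 3, 0), (39, 3, 1),
    (40, 4, 0), (41, 4, 1)], ∀ i < 7, ∀ t' < 2, (h i + t') % 80 = p.1 → i = p.2.1 ∧ t' = p.2.2 := by
  decide +kernel

theorem visSp8 {n q X d z : ℕ} (hn : n = 20480 * q + 80 * X + 80 * d + z)
    (hXd : X + d ≤ 255) (h8 : sp8 d z = true) (hpos : 1 ≤ q + X + (z + 1) % 2) :
    Opt (g U) n (2 * X + (z + 1) % 2) := by
  rcases sp8_spec h8 with ⟨rfl, rfl | rfl⟩ | ⟨rfl, rfl | rfl⟩ | ⟨rfl, rfl | rfl⟩ | ⟨rfl, rfl | rfl⟩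
  · exact visSp8_aux (c := 28) (r := 2351) (k := 2) (t := 0) (r' := 6044) hn hXd (by omega) (by omega)
      (by omega) (by omega) (by decide +kernel) (by omega) hpos (by omega) (by omega)
      (by decide) (by omega) (by omega) (huniq_chk (28, 2, 0) (by simp)) (by decide +kernel) (by decide)
  · exact visSp8_aux (c := 29) (r := 2351) (k := 2) (t := 1) (r' := 6044) hn hXd (by omega) (by omega)
      (by omega) (by omega) (by decide +kernel) (by omega) hpos (by omega) (by omega)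
      (by decide) (by omega) (by omega) (huniq_chk (29, 2, 1) (by simp)) (by decide +kernel) (by decide)
  · exact visSp8_aux (c := 50) (r := 3693) (k := 5) (t := 0) (r' := 6044) hn hXd (by omega) (by omega)
      (by omega) (by omega) (by decide +kernel) (by omega) hpos (by omega) (by omega)
      (by decide) (by omega) (by omega) (huniq_chk (50, 5, 0) (by simp)) (by decide +kernel) (by decide)
  · exact visSp8_aux (c := 51) (r := 3693) (k := 5) (t := 1) (r' := 6044) hn hXd (by omega) (by omega)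
      (by omega) (by omega) (by decide +kernel) (by omega) hpos (by omega) (by omega)
      (by decide) (by omega) (by omega) (huniq_chk (51, 5, 1) (by simp)) (by decide +kernel) (by decide)
  · exact visSp8_aux (c := 38) (r := 3965) (k := 3) (t := 0) (r' := 8692) hn hXd (by omega) (by omega)
      (by omega) (by omega) (by decide +kernel) (by omega) hpos (by omega) (by omega)
      (by decide) (by omega) (by omega) (huniq_chk (38, 3, 0) (by simp)) (by decide +kernel) (by decide)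
  · exact visSp8_aux (c := 39) (r := 3965) (k := 3) (t := 1) (r' := 8692) hn hXd (by omega) (by omega)
      (by omega) (by omega) (by decide +kernel) (by omega) hpos (by omega) (by omega)
      (by decide) (by omega) (by omega) (huniq_chk (39, 3, 1) (by simp)) (by decide +kernel) (by decide)
  · exact visSp8_aux (c := 40) (r := 4727) (k := 4) (t := 0) (r' := 8692) hn hXd (by omega) (by omega)
      (by omega) (by omega) (by decide +kernel) (by omega) hpos (by omega) (by omega)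
      (by decide) (by omega) (by omega) (huniq_chk (40, 4, 0) (by simp)) (by decide +kernel) (by decide)
  · exact visSp8_aux (c := 41) (r := 4727) (k := 4) (t := 1) (r' := 8692) hn hXd (by omega) (by omega)
      (by omega) (by omega) (by decide +kernel) (by omega) hpos (by omega) (by omega)
      (by decide) (by omega) (by omega) (huniq_chk (41, 4, 1) (by simp)) (by decide +kernel) (by decide)

end Pool.Agent.Helper522.Oct
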