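import Mathlib

set_option autoImplicit false

/-! Data of the octal game and the finite checks. -/

namespace Pool.Agent.Helper522.Oct

/-- value classes of the seven layers -/
def x : ℕ → ℕ
  | 0 => 23 | 1 => 11 | 2 => 45 | 3 => 58 | 4 => 49 | 5 => 28 | _ => 38

/-- columns of the sites -/
def y : ℕ → ℕ
  | 0 => 43 | 1 => 11 | 2 => 15 | 3 => 31 | 4 => 75 | 5 => 19 | _ => 55

/-- shifts -/
def sg : ℕ → ℕ
  | 0 => 1 | 1 => 3 | 2 => 2 | 3 => 1 | 4 => 1 | 5 => 3 | _ => 3

/-- sites -/
def s (i : ℕ) : ℕ := 20400 + y i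

/-- marker positions -/
def h : ℕ → ℕ
  | 0 => 1848 | 1 => 906 | 2 => 3628 | 3 => 4678 | 4 => 3960 | 5 => 2290 | _ => 3046

/-- distinguished one-heap moves -/
def r0 : ℕ → ℕ
  | 0 => 1885 | 1 => 975 | 2 => 3693 | 3 => 4727 | 4 => 3965 | 5 => 2351 | _ => 3071

/-- distinguished splitting moves -/
def rel : ℕ → ℕ
  | 0 => 77 | 1 => 40945 | 2 => 20481 | 3 => 37 | 4 => 57 | 5 => 41005 | _ => 41069

/-- all splitting moves -/
def R2L : List ℕ :=
  [10481, 10641, 10881, 11361, 11521, 11681, 12241, 12401, 13121, 13201, 13601, 13943, 14081,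
   14423, 15361, 15383, 77, 40945, 20481, 37, 57, 41005, 41069]

/-- Boolean conjunction over `i < n`. -/
def all (n : ℕ) (f : ℕ → Bool) : Bool := Nat.rec true (fun k acc => f k && acc) n

theorem all_spec {n : ℕ} {f : ℕ → Bool} (H : all n f = true) : ∀ i < n, f i = true := by
  induction n with
  | zero => intro i hi; omega
  | succ k ih =>
    have H' : (f k && all k f) = true := H
    rw [Bool.and_eq_true] at H'
    intro i hi
    rcases Nat.lt_succ_iff_lt_or_eq.mp hi with h1 | h1
    · exact ih H'.2 i h1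
    · rw [h1]; exact H'.1

theorem all_intro {n : ℕ} {f : ℕ → Bool} (H : ∀ i < n, f i = true) : all n f = true := by
  induction n with
  | zero => rfl
  | succ k ih =>
    change (f k && all k f) = true
    rw [Bool.and_eq_true]
    exact ⟨H k (by omega), ih (fun i hi => H i (by omega))⟩

/-- odd one-heap moves -/
def R1odd (r : ℕ) : Bool :=
  all 7 fun i => (!(Nat.beq (((s i + 20480 - r) % 20480) / 80) (x i))) &&
    (!(Nat.beq (((s i + r) % 20480) / 80) (x i)) || Nat.beq r (r0 i))

/-- even one-heap moves -/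
def R1even (r : ℕ) : Bool :=
  Nat.ble 80 r && Nat.ble r 20400 &&
    all 7 fun i => all 7 fun j => Nat.beq i j || !(Nat.beq r ((h i + 20480 - h j) % 20480))

/-- one-heap moves -/
def R1b (r : ℕ) : Bool :=
  Nat.ble 1 r && Nat.blt r 20480 && (bif Nat.beq (r % 2) 1 then R1odd r else R1even r)

/-- safe columns -/
def safe (c : ℕ) : Bool :=
  all 7 fun i => !(Nat.beq c (y i)) && !(Nat.beq c (y i + 1)) &&
    !(Nat.beq c (h i % 80)) && !(Nat.beq c (h i % 80 + 1))

/-- candidate target columns: try all `c < n` -/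
def ex (n : ℕ) (f : ℕ → Bool) : Bool := Nat.rec false (fun k acc => f k || acc) n

theorem ex_spec {n : ℕ} {f : ℕ → Bool} (H : ex n f = true) : ∃ i < n, f i = true := by
  induction n with
  | zero => exact absurd H (by simp [ex])
  | succ k ih =>
    have H' : (f k || ex k f) = true := H
    rw [Bool.or_eq_true] at H'
    rcases H' with h1 | h1
    · exact ⟨k, by omega, h1⟩
    · obtain ⟨i, hi, hf⟩ := ih h1
      exact ⟨i, by omega, hf⟩

end Pool.Agent.Helper522.Oct
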