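import Pool.Agent.Helper522.Oct.Game
import Pool.Agent.Helper522.Oct.Bits

set_option autoImplicit false

/-! No splitting move preserves the value. -/

namespace Pool.Agent.Helper522.Oct

variable {U : ℕ → ℕ → Prop}

theorem chkA_spec {r i t : ℕ} (hr : r ∈ R2L) (hi : i < 7) (ht : t < 2) :
    (((20400 - 80 * x i + y i + t + 61440 - r) % 20480) / 160) &&& (x i) ≠ 0 := by
  have H := all_spec (all_spec (allL_spec chkA_true r hr) i hi) t ht
  rw [Bool.not_eq_true', beqF] at H
  exact H

theorem chkB_spec {r i t : ℕ} (hr : r ∈ R2L) (hi : i < 7) (ht : t < 2) :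
    (FB r i t) &&& (x i) ≠ FB r i t := by
  have H := all_spec (all_spec (allL_spec chkB_true r hr) i hi) t ht
  rw [Bool.not_eq_true', beqF] at H
  exact H

theorem chkC_spec {r i j k t1 t2 : ℕ} (hr : r ∈ R2L) (hi : i < 7) (hj : j < 7) (hk : k < 7)
    (h1 : t1 < 2) (h2 : t2 < 2) (hx : x j ^^^ x k = x i)
    (hs : (s j + t1 + s k + t2 + r) % 20480 = (s i + (t1 + t2) % 2) % 20480) :
    r = rel i ∧ t1 + t2 < 2 ∧ ((j = (i + 3) % 7 ∧ k = (i + 2) % 7) ∨
      (j = (i + 2) % 7 ∧ k = (i + 3) % 7)) := by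
  have H := all_spec (all_spec (all_spec (allL_spec chkC_true r hr) i hi) j hj) k hk
  rw [Bool.or_eq_true, Bool.not_eq_true', beqF] at H
  rcases H with H | H
  · exact absurd hx H
  · have H2 := all_spec (all_spec H t1 h1) t2 h2
    simp only [Bool.or_eq_true, Bool.and_eq_true, Bool.not_eq_true', beqF, beqT, Nat.blt_eq] at H2
    rcases H2 with H3 | H3
    · exact absurd hs H3
    · exact ⟨H3.1.1, H3.1.2, H3.2⟩

theorem on_odd {i t n : ℕ} (H : On U i t n) : n % 2 = (1 + t) % 2 := by
  have h1 := H.2.2.1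
  have h2 := y_bd i H.1
  unfold s at h1
  omega

theorem hh_even {i t n : ℕ} (H : Hh U i t n) : n % 2 = t % 2 := by
  have h1 := H.2.2.1
  have h2 := h_bd i H.1
  omega

/-- two regular parts, active total -/
theorem caseA {a b r n i t : ℕ} (hr : r ∈ R2L) (hab : r + a + b = n) (Hn : On U i t n)
    (hx : (a % 20480 / 80) ^^^ (b % 20480 / 80) = x i) : False := by
  have h1 := add_xor_and (a % 20480 / 80) (b % 20480 / 80)
  have h2 := xor_and_and (a % 20480 / 80) (b % 20480 / 80)
  rw [hx] at h1 h2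
  have hb := x_bd i Hn.1
  have h3 := and_mod_128 (by omega) h2
  have h4 := chkA_spec hr Hn.1 Hn.2.1
  have h5 := Hn.2.2.1
  have h6 := R2L_odd r hr
  have h7 := y_bd i Hn.1
  have h8 := Hn.2.1
  unfold s at h5
  apply h4
  generalize (a % 20480 / 80) &&& (b % 20480 / 80) = D at *
  have h9 : ((20400 - 80 * x i + y i + t + 61440 - r) % 20480) / 160 = D % 128 := by
    omega
  rw [h9]
  exact h3

theorem decomp (n : ℕ) : ∃ q X z, n = 20480 * q + 80 * X + z ∧ X < 256 ∧ z < 80 ∧
    n % 20480 / 80 = X :=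
  ⟨n / 20480, n % 20480 / 80, n % 80, by omega, by omega, by omega, rfl⟩

/-- active part, regular part, regular total -/
theorem caseB {a b r n i t : ℕ} (hr : r ∈ R2L) (hab : r + a + b = n) (Ha : On U i t a)
    (hx : x i ^^^ (b % 20480 / 80) = n % 20480 / 80) : False := by
  obtain ⟨qb, Xb, zb, eb, hXb, hzb, fb⟩ := decomp b
  obtain ⟨qn, Xn, zn, en, hXn, hzn, fn⟩ := decomp n
  rw [fb, fn] at hx
  have h1 := add_xor_and Xb (x i)
  have h2 := and_and_self Xb (x i)
  have h3 := and_le_right' Xb (x i)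
  rw [Nat.xor_comm Xb, hx] at h1
  have hb := x_bd i Ha.1
  have h4 := chkB_spec hr Ha.1 Ha.2.1
  have h5 := Ha.2.2.1
  have h6 := R2L_odd r hr
  have h7 := y_bd i Ha.1
  have h8 := Ha.2.1
  unfold s at h5
  unfold FB at h4
  apply h4
  generalize Xb &&& (x i) = D at *
  have ha : a = 20480 * (a / 20480) + (20400 + y i + t) := by omega
  generalize a / 20480 = qa at *
  have h9 : (80 * (x i + 1) + 61440 + 79 - y i - t - r) + 20480 * qn =
      20480 * (4 + qa + qb) + (160 * D + 79 + zb - zn) := by omega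
  have h10 : (80 * (x i + 1) + 61440 + 79 - y i - t - r) % 20480 = (160 * D + 79 + zb - zn) := by
    omega
  have h11 : (80 * (x i + 1) + 61440 + 79 - y i - t - r) % 20480 / 160 = D := by
    rw [h10]; omega
  rw [h11]
  exact h2

/-- `U` solves the layer system. -/
def Sys (U : ℕ → ℕ → Prop) : Prop :=
  ∀ c < 7, ∀ u, U c u ↔ ¬ ∃ v w, U ((c + 3) % 7) v ∧ U ((c + 2) % 7) w ∧ v + w + sg c = u

/-- three active positions -/
theorem caseC (hU : Sys U) {a b r n i j k t1 t2 t3 : ℕ} (hr : r ∈ R2L) (hab : r + a + b = n)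
    (Ha : On U j t1 a) (Hb : On U k t2 b) (Hn : On U i t3 n)
    (hx : x j ^^^ x k = x i) (ht : (t1 + t2) % 2 = t3) : False := by
  have h1 := Ha.2.2.1
  have h2 := Hb.2.2.1
  have h3 := Hn.2.2.1
  subst ht
  obtain ⟨e1, e2, e3⟩ := chkC_spec hr Hn.1 Ha.1 Hb.1 Ha.2.1 Hb.2.1 hx (by omega)
  have e4 := rel_eq i Hn.1
  have h4 := Ha.2.2.2
  have h5 := Hb.2.2.2
  have h6 := Hn.2.2.2
  rw [hU i Hn.1] at h6
  apply h6
  rcases e3 with ⟨rfl, rfl⟩ | ⟨rfl, rfl⟩
  · exact ⟨_, _, h4, h5, by omega⟩
  · exact ⟨_, _, h5, h4, by omega⟩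

/-- first part active -/
theorem excl2_a (hU : Sys U) {a b r n i t : ℕ} (hr : r ∈ R2L) (hab : r + a + b = n)
    (Ha : On U i t a) : g U a ^^^ g U b ≠ g U n := by
  intro hg
  have hodd := (R2L_odd r hr).1
  have hxi := x_bd i Ha.1
  rw [g_on Ha] at hg
  have pa := on_odd Ha
  have ta := Ha.2.1
  rcases trich U b with ⟨j, t', Hb⟩ | ⟨j, t', Hb⟩ | Hb
  · rw [g_on Hb] at hg
    have pb := on_odd Hb
    have tb := Hb.2.1
    rcases trich U n with ⟨k, t'', Hn⟩ | ⟨k, t'', Hn⟩ | Hn
    · rw [g_on Hn] at hg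
      obtain ⟨e1, e2⟩ := xor_split Ha.2.1 Hb.2.1 Hn.2.1 hg
      exact caseC hU hr hab Ha Hb Hn e1 e2
    · rw [g_hh Hn] at hg
      have pn := hh_even Hn
      have tn := Hn.2.1
      rw [show 512 + t'' = 2 * 256 + t'' by ring] at hg
      obtain ⟨e1, e2⟩ := xor_split Ha.2.1 Hb.2.1 Hn.2.1 hg
      omega
    · rw [g_rg Hn] at hg
      obtain ⟨e1, e2⟩ := xor_split Ha.2.1 Hb.2.1 (by omega) hg
      omega
  · rw [g_hh Hb] at hg
    rw [show 512 + t' = 2 * 256 + t' by ring] at hg
    rcases trich U n with ⟨k, t'', Hn⟩ | ⟨k, t'', Hn⟩ | Hn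
    · rw [g_on Hn] at hg
      have pb := hh_even Hb
      have pn := on_odd Hn
      have tb := Hb.2.1
      have tn := Hn.2.1
      obtain ⟨e1, e2⟩ := xor_split Ha.2.1 Hb.2.1 Hn.2.1 hg
      omega
    · rw [g_hh Hn] at hg
      rw [show 512 + t'' = 2 * 256 + t'' by ring] at hg
      obtain ⟨e1, e2⟩ := xor_split Ha.2.1 Hb.2.1 Hn.2.1 hg
      rw [Nat.xor_comm] at e1
      have := xor_cancel e1
      rw [Nat.xor_self] at this
      omega
    · rw [g_rg Hn] at hg
      obtain ⟨e1, e2⟩ := xor_split Ha.2.1 Hb.2.1 (by omega) hg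
      have := xor_cancel e1
      exact xor_ne_256 (by omega) (by omega) this
  · rw [g_rg Hb] at hg
    rcases trich U n with ⟨k, t'', Hn⟩ | ⟨k, t'', Hn⟩ | Hn
    · rw [g_on Hn] at hg
      have pn := on_odd Hn
      have tn := Hn.2.1
      obtain ⟨e1, e2⟩ := xor_split Ha.2.1 (by omega) Hn.2.1 hg
      omega
    · rw [g_hh Hn] at hg
      rw [show 512 + t'' = 2 * 256 + t'' by ring] at hg
      obtain ⟨e1, e2⟩ := xor_split Ha.2.1 (by omega) Hn.2.1 hg
      exact xor_ne_256 (by omega) (by omega) e1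
    · rw [g_rg Hn] at hg
      obtain ⟨e1, e2⟩ := xor_split Ha.2.1 (by omega) (by omega) hg
      exact caseB hr hab Ha e1

/-- No splitting move preserves the value. -/
theorem excl2 (hU : Sys U) {a b r n : ℕ} (hr : r ∈ R2L) (hab : r + a + b = n) :
    g U a ^^^ g U b ≠ g U n := by
  rcases trich U a with ⟨i, t, Ha⟩ | Ha'
  · exact excl2_a hU hr hab Ha
  · rcases trich U b with ⟨j, t', Hb⟩ | Hb'
    · rw [Nat.xor_comm]
      exact excl2_a hU hr (by omega) Hb
    · intro hg
      have hodd := (R2L_odd r hr).1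
      rcases trich U n with ⟨k, t'', Hn⟩ | ⟨k, t'', Hn⟩ | Hn
      · have hxk := x_bd k Hn.1
        rw [g_on Hn] at hg
        rcases Ha' with ⟨i, t, Ha⟩ | Ha
        · rw [g_hh Ha] at hg
          rw [show 512 + t = 2 * 256 + t by ring] at hg
          rcases Hb' with ⟨j, t', Hb⟩ | Hb
          · rw [g_hh Hb] at hg
            rw [show 512 + t' = 2 * 256 + t' by ring] at hg
            obtain ⟨e1, e2⟩ := xor_split Ha.2.1 Hb.2.1 Hn.2.1 hg
            rw [Nat.xor_self] at e1
            omega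
          · rw [g_rg Hb] at hg
            obtain ⟨e1, e2⟩ := xor_split Ha.2.1 (by omega) Hn.2.1 hg
            rw [Nat.xor_comm] at e1
            have := xor_cancel e1
            exact xor_ne_256 (by omega) (by omega) this
        · rw [g_rg Ha] at hg
          rcases Hb' with ⟨j, t', Hb⟩ | Hb
          · rw [g_hh Hb] at hg
            rw [show 512 + t' = 2 * 256 + t' by ring] at hg
            obtain ⟨e1, e2⟩ := xor_split (by omega) Hb.2.1 Hn.2.1 hg
            have := xor_cancel e1
            exact xor_ne_256 (by omega) (by omega) this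
          · rw [g_rg Hb] at hg
            obtain ⟨e1, e2⟩ := xor_split (by omega) (by omega) Hn.2.1 hg
            exact caseA hr hab Hn e1
      · rw [g_hh Hn] at hg
        have tn := Hn.2.1
        have pn := hh_even Hn
        rw [show 512 + t'' = 2 * 256 + t'' by ring] at hg
        rcases Ha' with ⟨i, t, Ha⟩ | Ha
        · rw [g_hh Ha] at hg
          have pa := hh_even Ha
          rw [show 512 + t = 2 * 256 + t by ring] at hg
          rcases Hb' with ⟨j, t', Hb⟩ | Hb
          · rw [g_hh Hb] at hg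
            have pb := hh_even Hb
            rw [show 512 + t' = 2 * 256 + t' by ring] at hg
            obtain ⟨e1, e2⟩ := xor_split Ha.2.1 Hb.2.1 Hn.2.1 hg
            omega
          · rw [g_rg Hb] at hg
            obtain ⟨e1, e2⟩ := xor_split Ha.2.1 (by omega) Hn.2.1 hg
            omega
        · rw [g_rg Ha] at hg
          rcases Hb' with ⟨j, t', Hb⟩ | Hb
          · rw [g_hh Hb] at hg
            have pb := hh_even Hb
            rw [show 512 + t' = 2 * 256 + t' by ring] at hg
            obtain ⟨e1, e2⟩ := xor_split (by omega) Hb.2.1 Hn.2.1 hg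
            omega
          · rw [g_rg Hb] at hg
            obtain ⟨e1, e2⟩ := xor_split (by omega) (by omega) Hn.2.1 hg
            omega
      · rw [g_rg Hn] at hg
        rcases Ha' with ⟨i, t, Ha⟩ | Ha
        · rw [g_hh Ha] at hg
          have pa := hh_even Ha
          rw [show 512 + t = 2 * 256 + t by ring] at hg
          rcases Hb' with ⟨j, t', Hb⟩ | Hb
          · rw [g_hh Hb] at hg
            have pb := hh_even Hb
            rw [show 512 + t' = 2 * 256 + t' by ring] at hg
            obtain ⟨e1, e2⟩ := xor_split Ha.2.1 Hb.2.1 (by omega) hg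
            omega
          · rw [g_rg Hb] at hg
            obtain ⟨e1, e2⟩ := xor_split Ha.2.1 (by omega) (by omega) hg
            omega
        · rw [g_rg Ha] at hg
          rcases Hb' with ⟨j, t', Hb⟩ | Hb
          · rw [g_hh Hb] at hg
            have pb := hh_even Hb
            rw [show 512 + t' = 2 * 256 + t' by ring] at hg
            obtain ⟨e1, e2⟩ := xor_split (by omega) Hb.2.1 (by omega) hg
            omega
          · rw [g_rg Hb] at hg
            obtain ⟨e1, e2⟩ := xor_split (by omega) (by omega) (by omega) hg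
            omega

end Pool.Agent.Helper522.Oct
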