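import Pool.Agent.Helper522.Oct.Data

set_option autoImplicit false
set_option linter.unusedSimpArgs false

/-! The solution of the layer system. -/

namespace Pool.Agent.Helper522.Oct

/-- shifts, extended periodically -/
def sk (k : ℕ) : ℕ := sg (k % 7)

/-- left endpoints -/
def T : ℕ → ℕ
  | 0 => 0
  | 1 => 0
  | 2 => 0
  | 3 => 0
  | 4 => 0
  | 5 => 0
  | 6 => 0
  | 7 => 3
  | 8 => 4
  | 9 => 5
  | 10 => 6
  | 11 => 9
  | (n + 12) => T (n + 10) + T (n + 9) + sk (n + 8) + sk (n + 7) + sk (n + 12) - 1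

/-- right endpoints -/
def E (k : ℕ) : ℕ := if k < 7 then sk k - 1 else T (k + 2) + sk k - 1

/-- the active rows -/
def UU (c u : ℕ) : Prop := ∃ k, k % 7 = c ∧ T k ≤ u ∧ u ≤ E k

theorem sk_bd (k : ℕ) : 1 ≤ sk k ∧ sk k ≤ 3 := by
  have : ∀ i < 7, 1 ≤ sg i ∧ sg i ≤ 3 := by decide
  exact this _ (Nat.mod_lt _ (by omega))

theorem sk_add (k : ℕ) : sk (k + 7) = sk k := by
  unfold sk
  rw [Nat.add_mod_right]

theorem T_rec (n : ℕ) :
    T (n + 12) = T (n + 10) + T (n + 9) + sk (n + 8) + sk (n + 7) + sk (n + 12) - 1 := by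
  rw [T]

theorem E_big (k : ℕ) : E (k + 7) = T (k + 9) + sk (k + 7) - 1 := by
  unfold E
  rw [if_neg (by omega)]

theorem T_key (l : ℕ) : T (l + 7) = E (l + 3) + E (l + 2) + sk (l + 7) + 1 := by
  by_cases h : l < 5
  · have : l = 0 ∨ l = 1 ∨ l = 2 ∨ l = 3 ∨ l = 4 := by omega
    rcases this with rfl | rfl | rfl | rfl | rfl <;> decide
  · obtain ⟨n, rfl⟩ : ∃ n, l = n + 5 := ⟨l - 5, by omega⟩
    have h1 := T_rec n
    have h2 := E_big (n + 1)
    have h3 := E_big n
    have h4 := sk_bd (n + 8)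
    have h5 := sk_bd (n + 7)
    have h6 := sk_bd (n + 12)
    rw [show n + 1 + 7 = n + 8 by ring, show n + 1 + 9 = n + 10 by ring] at h2
    rw [show n + 5 + 7 = n + 12 by ring, show n + 5 + 3 = n + 8 by ring,
      show n + 5 + 2 = n + 7 by ring]
    omega

theorem T_step (k : ℕ) : T (k + 12) + 5 ≤ T (k + 13) := by
  induction k using Nat.strong_induction_on with
  | _ k ih =>
    by_cases h : k < 3
    · have : k = 0 ∨ k = 1 ∨ k = 2 := by omega
      rcases this with rfl | rfl | rfl <;> decide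
    · obtain ⟨n, rfl⟩ : ∃ n, k = n + 3 := ⟨k - 3, by omega⟩
      have h1 := T_rec (n + 3)
      have h2 := T_rec (n + 4)
      have h3 := ih n (by omega)
      have h4 := ih (n + 1) (by omega)
      have b1 := sk_bd (n + 12)
      have b2 := sk_bd (n + 11)
      have b3 := sk_bd (n + 16)
      have b4 := sk_bd (n + 15)
      have b5 := sk_bd (n + 10)
      simp only [show n + 3 + 12 = n + 15 by ring, show n + 3 + 10 = n + 13 by ring,
        show n + 3 + 9 = n + 12 by ring, show n + 3 + 8 = n + 11 by ring,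
        show n + 3 + 7 = n + 10 by ring, show n + 4 + 12 = n + 16 by ring,
        show n + 4 + 10 = n + 14 by ring, show n + 4 + 9 = n + 13 by ring,
        show n + 4 + 8 = n + 12 by ring, show n + 4 + 7 = n + 11 by ring,
        show n + 1 + 12 = n + 13 by ring, show n + 1 + 13 = n + 14 by ring,
        show n + 3 + 13 = n + 16 by ring] at h1 h2 h3 h4 ⊢
      omega

theorem T_succ (k : ℕ) : T k ≤ T (k + 1) := by
  by_cases h : k < 12
  · have : ∀ k < 12, T k ≤ T (k + 1) := by decide
    exact this k h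
  · obtain ⟨n, rfl⟩ : ∃ n, k = n + 12 := ⟨k - 12, by omega⟩
    have := T_step n
    rw [show n + 12 + 1 = n + 13 by ring]
    omega

theorem T_mono : Monotone T := monotone_nat_of_le_succ T_succ

theorem E_add (l : ℕ) : E l ≤ E (l + 7) := by
  by_cases h : l < 7
  · have : ∀ l < 7, E l ≤ E (l + 7) := by decide
    exact this l h
  · obtain ⟨n, rfl⟩ : ∃ n, l = n + 7 := ⟨l - 7, by omega⟩
    rw [E_big n, E_big (n + 7)]
    have h1 := T_mono (show n + 9 ≤ n + 7 + 9 by omega)
    rw [sk_add (n + 7)]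
    omega

theorem E_class {k l : ℕ} (h : k % 7 = l % 7) (hkl : k ≤ l) : E k ≤ E l := by
  obtain ⟨m, rfl⟩ : ∃ m, l = k + 7 * m := ⟨(l - k) / 7, by omega⟩
  clear h hkl
  induction m with
  | zero => exact le_rfl
  | succ m ih =>
    have := E_add (k + 7 * m)
    rw [show k + 7 * (m + 1) = k + 7 * m + 7 by ring]
    omega

/-- a value below `T (k+7)` in the class of `k` is at most `E k` -/
theorem UU_le {c u k : ℕ} (hk : k % 7 = c) (H : UU c u) (hu : u < T (k + 7)) : u ≤ E k := by
  obtain ⟨k', e, h1, h2⟩ := H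
  have hlt : k' < k + 7 := by
    by_contra hc
    have := T_mono (show k + 7 ≤ k' by omega)
    omega
  have hle : k' ≤ k := by omega
  have := E_class (by omega : k' % 7 = k % 7) hle
  omega

theorem UU_zero {c : ℕ} (hc : c < 7) : UU c 0 := by
  have h : ∀ c < 7, T c ≤ 0 := by decide
  exact ⟨c, Nat.mod_eq_of_lt hc, h c hc, Nat.zero_le _⟩

theorem T_grow (k : ℕ) : T k + 1 ≤ T (k + 7) := by
  have h1 := T_key k
  by_cases h : k < 7
  · have h : ∀ c < 7, T c ≤ 0 := by decide
    have := h k (by omega)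
    omega
  · obtain ⟨n, rfl⟩ : ∃ n, k = n + 7 := ⟨k - 7, by omega⟩
    have h2 := E_big (n + 3)
    have h3 := T_mono (show n + 7 ≤ n + 3 + 9 by omega)
    have h4 := sk_bd (n + 3 + 7)
    rw [show n + 3 + 7 = n + 7 + 3 by ring] at h2 h4
    omega

theorem T_ge (c j : ℕ) : j ≤ T (c + 7 * j) := by
  induction j with
  | zero => exact Nat.zero_le _
  | succ j ih =>
    have := T_grow (c + 7 * j)
    rw [show c + 7 * (j + 1) = c + 7 * j + 7 by ring]
    omega

/-- location of `u` among the intervals of a class -/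
theorem locate {c : ℕ} (hc : c < 7) (u : ℕ) :
    ∃ k, k % 7 = c ∧ T k ≤ u ∧ u < T (k + 7) := by
  have hex : ∃ j, u < T (c + 7 * j + 7) := by
    refine ⟨u, ?_⟩
    have := T_ge c (u + 1)
    rw [show c + 7 * (u + 1) = c + 7 * u + 7 by ring] at this
    omega
  classical
  refine ⟨c + 7 * Nat.find hex, by omega, ?_, Nat.find_spec hex⟩
  rcases Nat.eq_zero_or_pos (Nat.find hex) with h0 | h0
  · rw [h0]
    have h : ∀ c < 7, T c ≤ 0 := by decide
    have := h c hc
    simpa using le_trans this (Nat.zero_le u)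
  · have := Nat.find_min hex (m := Nat.find hex - 1) (by omega)
    rw [show c + 7 * (Nat.find hex - 1) + 7 = c + 7 * Nat.find hex by omega] at this
    omega

/-- small rows -/
def Ub (c v : ℕ) : Bool := Nat.ble v (E c) || (Nat.ble (T (c + 7)) v && Nat.ble v (E (c + 7)))

theorem Ub_UU {c v : ℕ} (hc : c < 7) (H : Ub c v = true) : UU c v := by
  unfold Ub at H
  rw [Bool.or_eq_true, Bool.and_eq_true, Nat.ble_eq, Nat.ble_eq, Nat.ble_eq] at H
  rcases H with H | H
  · have h : ∀ c < 7, T c ≤ 0 := by decide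
    have := h c hc
    exact ⟨c, Nat.mod_eq_of_lt hc, by omega, H⟩
  · exact ⟨c + 7, by omega, H.1, H.2⟩

def smallChk : Bool :=
  all 7 fun c => all 22 fun u => Nat.ble u (E c) || Nat.ble (T (c + 7)) u ||
    ex 22 fun v => ex 22 fun w => Ub ((c + 3) % 7) v && Ub ((c + 2) % 7) w &&
      Nat.beq (v + w + sg c) u

theorem smallChk_true : smallChk = true := by decide +kernel

theorem small_rows {c u : ℕ} (hc : c < 7) (hu : u < 22) (h1 : E c < u) (h2 : u < T (c + 7)) :
    ∃ v w, Ub ((c + 3) % 7) v = true ∧ Ub ((c + 2) % 7) w = true ∧ v + w + sg c = u := by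
  have H := all_spec (all_spec smallChk_true c hc) u hu
  rw [Bool.or_eq_true, Bool.or_eq_true, Nat.ble_eq, Nat.ble_eq] at H
  rcases H with (H | H) | H
  · omega
  · omega
  · obtain ⟨v, -, H⟩ := ex_spec H
    obtain ⟨w, -, H⟩ := ex_spec H
    rw [Bool.and_eq_true, Bool.and_eq_true, Nat.beq_eq] at H
    exact ⟨v, w, H.1.1, H.1.2, H.2⟩

theorem sys_UU : ∀ c < 7, ∀ u, UU c u ↔
    ¬ ∃ v w, UU ((c + 3) % 7) v ∧ UU ((c + 2) % 7) w ∧ v + w + sg c = u := by
  intro c hc u
  constructor
  · rintro ⟨k, e, h1, h2⟩ ⟨v, w, hv, hw, hs⟩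
    have hsk : sk k = sg c := by unfold sk; rw [e]
    by_cases hk : k < 7
    · unfold E at h2
      rw [if_pos hk, hsk] at h2
      have := sk_bd k
      omega
    · obtain ⟨n, rfl⟩ : ∃ n, k = n + 7 := ⟨k - 7, by omega⟩
      have h3 := E_big n
      have h4 := T_key n
      have hb := sk_bd (n + 7)
      have hv' := UU_le (k := n + 3) (by omega) hv (by
        have := T_mono (show n + 9 ≤ n + 3 + 7 by omega)
        omega)
      have hw' := UU_le (k := n + 2) (by omega) hw (by
        rw [show n + 2 + 7 = n + 9 by ring]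
        omega)
      omega
  · intro H
    by_contra hU
    apply H
    obtain ⟨k, e, h1, h2⟩ := locate hc u
    have h3 : E k < u := by
      by_contra hc'
      exact hU ⟨k, e, h1, by omega⟩
    have hsk : sk k = sg c := by unfold sk; rw [e]
    have hb := sk_bd k
    by_cases hk : k < 7
    · have hkc : k = c := by omega
      subst hkc
      have hT : ∀ c < 7, T (c + 7) ≤ 22 := by decide
      obtain ⟨v, w, a1, a2, a3⟩ := small_rows hk (by have := hT k hk; omega) h3 h2
      exact ⟨v, w, Ub_UU (Nat.mod_lt _ (by omega)) a1, Ub_UU (Nat.mod_lt _ (by omega)) a2, a3⟩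
    · obtain ⟨n, rfl⟩ : ∃ n, k = n + 7 := ⟨k - 7, by omega⟩
      have e1 := E_big n
      have e2 := E_big (n + 2)
      have e3 := E_big (n + 3)
      have e4 := T_key (n + 7)
      have e5 := T_rec n
      have b1 := sk_bd (n + 9)
      have b2 := sk_bd (n + 10)
      have b3 := sk_bd (n + 12)
      have b4 := sk_bd (n + 8)
      have m1 := T_mono (show n + 10 ≤ n + 11 by omega)
      have m2 := T_mono (show n + 9 ≤ n + 11 by omega)
      have e6 := sk_add (n + 7)
      simp only [show n + 2 + 7 = n + 9 by ring, show n + 2 + 9 = n + 11 by ring,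
        show n + 3 + 7 = n + 10 by ring, show n + 3 + 9 = n + 12 by ring,
        show n + 7 + 7 = n + 14 by ring, show n + 7 + 3 = n + 10 by ring,
        show n + 7 + 2 = n + 9 by ring] at *
      have hz : ∃ z, z + sg c = u := ⟨u - sg c, by omega⟩
      obtain ⟨z, hz⟩ := hz
      have z1 : T (n + 9) ≤ z := by omega
      have z2 : z ≤ E (n + 10) + E (n + 9) := by omega
      have c3 : (c + 3) % 7 < 7 := Nat.mod_lt _ (by omega)
      have c2 : (c + 2) % 7 < 7 := Nat.mod_lt _ (by omega)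
      by_cases q1 : z ≤ E (n + 9)
      · exact ⟨0, z, UU_zero c3, ⟨n + 9, by omega, z1, q1⟩, by omega⟩
      · by_cases q2 : z ≤ E (n + 10)
        · exact ⟨z, 0, ⟨n + 10, by omega, by omega, q2⟩, UU_zero c2, by omega⟩
        · by_cases q3 : T (n + 10) ≤ z - E (n + 9)
          · exact ⟨z - E (n + 9), E (n + 9), ⟨n + 10, by omega, q3, by omega⟩,
              ⟨n + 9, by omega, by omega, le_rfl⟩, by omega⟩
          · exact ⟨T (n + 10), z - T (n + 10), ⟨n + 10, by omega, le_rfl, by omega⟩,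
              ⟨n + 9, by omega, by omega, by omega⟩, by omega⟩

/-- the active rows of class `0` are not eventually periodic -/
theorem UU_aper (p n0 : ℕ) (hp : 1 ≤ p) : ¬ ∀ u ≥ n0, (UU 0 (u + p) ↔ UU 0 u) := by
  intro H
  have hk := T_ge 7 (n0 + p + 10)
  set n := 7 * (n0 + p + 10) with hn
  rw [show 7 + n = n + 7 by ring] at hk
  have e1 := E_big n
  have e2 := E_big (n + 2)
  have e3 := E_big (n + 3)
  have e4 := T_key (n + 7)
  have b1 := sk_bd (n + 9)
  have b2 := sk_bd (n + 10)
  have b3 := sk_bd (n + 7)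
  have b4 := sk_bd (n + 14)
  simp only [show n + 2 + 7 = n + 9 by ring, show n + 2 + 9 = n + 11 by ring,
    show n + 3 + 7 = n + 10 by ring, show n + 3 + 9 = n + 12 by ring,
    show n + 7 + 7 = n + 14 by ring, show n + 7 + 3 = n + 10 by ring,
    show n + 7 + 2 = n + 9 by ring] at *
  have m1 := T_mono (show n + 7 ≤ n + 9 by omega)
  have m2 := T_mono (show n + 9 ≤ n + 11 by omega)
  have m3 := T_mono (show n + 11 ≤ n + 12 by omega)
  have h1 : UU 0 (E (n + 7)) := ⟨n + 7, by omega, by omega, le_rfl⟩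
  have h2 := (H (E (n + 7)) (by omega)).mpr h1
  have h3 := UU_le (k := n + 7) (by omega) h2 (by
    rw [show n + 7 + 7 = n + 14 by ring]
    omega)
  omega

end Pool.Agent.Helper522.Oct
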