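import Pool.Agent.Helper522.Oct.Main
import Pool.Agent.Helper522.Oct.System

set_option autoImplicit false

/-! The Grundy sequence of the game `M` is not eventually periodic. -/

namespace Pool.Agent.Helper522.Oct

theorem site_on {u : ℕ} (hu : UU 0 u) : g UU (20480 * u + 20443) = 46 := by
  have : On UU 0 0 (20480 * u + 20443) := by
    refine ⟨by omega, by omega, ?_, ?_⟩
    · have : s 0 = 20443 := rfl
      omega
    · have : (20480 * u + 20443) / 20480 = u := by omega
      rw [this]; exact hu
  rw [g_on this]
  rfl

theorem site_off {u : ℕ} (hu : ¬ UU 0 u) : g UU (20480 * u + 20443) = 511 := by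
  have : Rg UU (20480 * u + 20443) := by
    constructor
    · rintro i t ⟨hi, ht, e, hU⟩
      have hs := s_sep 0 (by omega) i hi
      have : s 0 = 20443 := rfl
      rcases hs with rfl | hs | hs
      · apply hu
        have : (20480 * u + 20443) / 20480 = u := by omega
        rw [this] at hU
        exact hU
      · omega
      · omega
    · rintro i t ⟨hi, ht, e, -⟩
      have := h_bd i hi
      omega
  rw [g_rg this]
  omega

theorem g_aper : ¬ ∃ p : ℕ, 1 ≤ p ∧ ∃ n₀ : ℕ, ∀ n ≥ n₀, g UU (n + p) = g UU n := by
  rintro ⟨p, hp, n0, H⟩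
  have Hk : ∀ k n, n0 ≤ n → g UU (n + k * p) = g UU n := by
    intro k
    induction k with
    | zero => intro n _; simp
    | succ k ih =>
      intro n hn
      have h1 := ih (n + p) (by omega)
      have h2 := H n hn
      rw [show n + (k + 1) * p = n + p + k * p by ring, h1, h2]
  apply UU_aper p n0 hp
  intro u hu
  have h1 := Hk 20480 (20480 * u + 20443) (by omega)
  rw [show 20480 * u + 20443 + 20480 * p = 20480 * (u + p) + 20443 by ring] at h1
  by_cases a1 : UU 0 (u + p)
  · by_cases a2 : UU 0 u
    · exact ⟨fun _ => a2, fun _ => a1⟩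
    · rw [site_on a1, site_off a2] at h1
      omega
  · by_cases a2 : UU 0 u
    · rw [site_off a1, site_on a2] at h1
      omega
    · exact ⟨fun h => absurd h a1, fun h => absurd h a2⟩

end Pool.Agent.Helper522.Oct
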