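import Pool.Agent.Helper522.Oct.Chk2

set_option autoImplicit false

/-! The Grundy function of the game, relative to a solution `U` of the layer system. -/

namespace Pool.Agent.Helper522.Oct

theorem beqT {a b : ℕ} : Nat.beq a b = true ↔ a = b := by
  rw [Nat.beq_eq]

theorem beqF {a b : ℕ} : Nat.beq a b = false ↔ a ≠ b := by
  rw [← Bool.not_eq_true, beqT]

theorem R1b_range {r : ℕ} (H : R1b r = true) : 1 ≤ r ∧ r < 20480 := by
  unfold R1b at H
  rw [Bool.and_eq_true, Bool.and_eq_true] at H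
  obtain ⟨⟨h1, h2⟩, -⟩ := H
  exact ⟨Nat.le_of_ble_eq_true h1, Nat.blt_eq.mp h2⟩

theorem R1b_odd {r : ℕ} (H : R1b r = true) (hr : r % 2 = 1) :
    ∀ i < 7, ((s i + 20480 - r) % 20480) / 80 ≠ x i ∧
      (((s i + r) % 20480) / 80 = x i → r = r0 i) := by
  unfold R1b at H
  rw [Bool.and_eq_true, hr] at H
  have H2 : R1odd r = true := H.2
  intro i hi
  have H3 := all_spec H2 i hi
  simp only [Bool.and_eq_true, Bool.or_eq_true, Bool.not_eq_true', beqF,
    beqT] at H3
  refine ⟨H3.1, fun h => ?_⟩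
  rcases H3.2 with h1 | h1
  · exact absurd h h1
  · exact h1

theorem R1b_even {r : ℕ} (H : R1b r = true) (hr : r % 2 = 0) :
    80 ≤ r ∧ r ≤ 20400 ∧ ∀ i < 7, ∀ j < 7, i ≠ j → r ≠ (h i + 20480 - h j) % 20480 := by
  unfold R1b at H
  rw [Bool.and_eq_true, hr] at H
  have H2 : R1even r = true := H.2
  unfold R1even at H2
  rw [Bool.and_eq_true, Bool.and_eq_true] at H2
  obtain ⟨⟨h1, h2⟩, h3⟩ := H2
  refine ⟨Nat.le_of_ble_eq_true h1, Nat.le_of_ble_eq_true h2, ?_⟩
  intro i hi j hj hij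
  have H3 := all_spec (all_spec h3 i hi) j hj
  simp only [Bool.or_eq_true, Bool.not_eq_true', beqF,
    beqT] at H3
  rcases H3 with h4 | h4
  · exact absurd h4 hij
  · exact h4

variable (U : ℕ → ℕ → Prop)

/-- active site -/
def On (i t n : ℕ) : Prop := i < 7 ∧ t < 2 ∧ n % 20480 = s i + t ∧ U i (n / 20480)

/-- marker -/
def Hh (i t n : ℕ) : Prop :=
  i < 7 ∧ t < 2 ∧ n % 20480 = h i + t ∧ 1 ≤ n / 20480 ∧ U i (n / 20480 - 1)

/-- regular position -/
def Rg (n : ℕ) : Prop := (∀ i t, ¬ On U i t n) ∧ (∀ i t, ¬ Hh U i t n)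

variable {U}

theorem On_unique {i t j t' n : ℕ} (H : On U i t n) (H' : On U j t' n) : i = j ∧ t = t' := by
  obtain ⟨h1, h2, h3, -⟩ := H
  obtain ⟨h1', h2', h3', -⟩ := H'
  rcases s_sep i h1 j h1' with h | h | h
  · subst h; exact ⟨rfl, by omega⟩
  · omega
  · omega

theorem Hh_unique {i t j t' n : ℕ} (H : Hh U i t n) (H' : Hh U j t' n) : i = j ∧ t = t' := by
  obtain ⟨h1, h2, h3, -⟩ := H
  obtain ⟨h1', h2', h3', -⟩ := H'
  rcases h_sep i h1 j h1' with h | h | h
  · subst h; exact ⟨rfl, by omega⟩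
  · omega
  · omega

theorem On_Hh {i t j t' n : ℕ} (H : On U i t n) (H' : Hh U j t' n) : False := by
  obtain ⟨h1, h2, h3, -⟩ := H
  obtain ⟨h1', h2', h3', -⟩ := H'
  have := h_bd j h1'
  have := y_bd i h1
  unfold s at h3
  omega

variable (U)

theorem trich (n : ℕ) : (∃ i t, On U i t n) ∨ (∃ i t, Hh U i t n) ∨ Rg U n := by
  by_cases h1 : ∃ i t, On U i t n
  · exact Or.inl h1
  · by_cases h2 : ∃ i t, Hh U i t n
    · exact Or.inr (Or.inl h2)
    · push Not at h1 h2
      exact Or.inr (Or.inr ⟨h1, h2⟩)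

open Classical in
/-- the Grundy function -/
noncomputable def g (n : ℕ) : ℕ :=
  if H : ∃ i t, On U i t n then 2 * x H.choose + H.choose_spec.choose
  else if H : ∃ i t, Hh U i t n then 512 + H.choose_spec.choose
  else 2 * (n % 20480 / 80) + n % 2

variable {U}

theorem g_on {i t n : ℕ} (H : On U i t n) : g U n = 2 * x i + t := by
  have H1 : ∃ i t, On U i t n := ⟨i, t, H⟩
  unfold g
  rw [dif_pos H1]
  obtain ⟨h1, h2⟩ := On_unique H H1.choose_spec.choose_spec
  have h1' := congrArg x h1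
  omega

theorem g_hh {i t n : ℕ} (H : Hh U i t n) : g U n = 512 + t := by
  have H1 : ∃ i t, Hh U i t n := ⟨i, t, H⟩
  have H0 : ¬ ∃ i t, On U i t n := by
    rintro ⟨j, t', H'⟩
    exact On_Hh H' H
  unfold g
  rw [dif_neg H0, dif_pos H1]
  obtain ⟨h1, h2⟩ := Hh_unique H H1.choose_spec.choose_spec
  rw [← h2]

theorem g_rg {n : ℕ} (H : Rg U n) : g U n = 2 * (n % 20480 / 80) + n % 2 := by
  have H0 : ¬ ∃ i t, On U i t n := by
    rintro ⟨j, t', H'⟩
    exact H.1 _ _ H'
  have H1 : ¬ ∃ i t, Hh U i t n := by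
    rintro ⟨j, t', H'⟩
    exact H.2 _ _ H'
  unfold g
  rw [dif_neg H0, dif_neg H1]

/-- No one-heap move preserves the value. -/
theorem excl1 {a r n : ℕ} (hr : R1b r = true) (han : a + r = n) : g U a ≠ g U n := by
  intro hg
  obtain ⟨hr1, hr2⟩ := R1b_range hr
  rcases trich U a with ⟨i, t, Ha⟩ | ⟨i, t, Ha⟩ | Ha
  · rw [g_on Ha] at hg
    have hx := x_bd i Ha.1
    have hy := y_bd i Ha.1
    rcases trich U n with ⟨j, t', Hn⟩ | ⟨j, t', Hn⟩ | Hn
    · rw [g_on Hn] at hg
      have h2 := Ha.2.1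
      have h2' := Hn.2.1
      have h3 := Ha.2.2.1
      have h3' := Hn.2.2.1
      have : x i = x j := by omega
      have hij := x_inj i Ha.1 j Hn.1 this
      subst hij
      omega
    · rw [g_hh Hn] at hg
      have h2 := Ha.2.1
      have h2' := Hn.2.1
      omega
    · rw [g_rg Hn] at hg
      have h2 := Ha.2.1
      have h3 := Ha.2.2.1
      unfold s at h3
      have hn1 : n % 20480 / 80 = x i := by omega
      have hn2 : n % 2 = t := by omega
      have hodd : r % 2 = 1 := by omega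
      have h5 := (R1b_odd hr hodd i Ha.1).2 (by unfold s; omega)
      have h6 := r0_eq i Ha.1
      unfold s at h6
      apply Hn.2 i t
      refine ⟨Ha.1, Ha.2.1, by omega, by omega, ?_⟩
      have : n / 20480 - 1 = a / 20480 := by
        have := h_bd i Ha.1
        omega
      rw [this]; exact Ha.2.2.2
  · rw [g_hh Ha] at hg
    rcases trich U n with ⟨j, t', Hn⟩ | ⟨j, t', Hn⟩ | Hn
    · rw [g_on Hn] at hg
      have := x_bd j Hn.1
      have := Hn.2.1
      omega
    · rw [g_hh Hn] at hg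
      have h1 := Ha.1
      have h2 := Ha.2.1
      have h2' := Hn.2.1
      have h3 := Ha.2.2.1
      have h3' := Hn.2.2.1
      have hb := h_bd i Ha.1
      have hb' := h_bd j Hn.1
      have hev : r % 2 = 0 := by omega
      have h5 := (R1b_even hr hev).2.2
      by_cases hij : i = j
      · subst hij
        omega
      · apply h5 j Hn.1 i Ha.1 (Ne.symm hij)
        omega
    · rw [g_rg Hn] at hg
      omega
  · rw [g_rg Ha] at hg
    rcases trich U n with ⟨j, t', Hn⟩ | ⟨j, t', Hn⟩ | Hn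
    · rw [g_on Hn] at hg
      have hx := x_bd j Hn.1
      have hy := y_bd j Hn.1
      have h2 := Hn.2.1
      have h3 := Hn.2.2.1
      unfold s at h3
      have hodd : r % 2 = 1 := by omega
      have ha1 : a % 20480 / 80 = x j := by omega
      apply (R1b_odd hr hodd j Hn.1).1
      unfold s
      omega
    · rw [g_hh Hn] at hg
      omega
    · rw [g_rg Hn] at hg
      have hev : r % 2 = 0 := by omega
      have h5 := R1b_even hr hev
      omega

end Pool.Agent.Helper522.Oct
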