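import Pool.Agent.Helper522.Oct.Cover

set_option autoImplicit false

/-! The Grundy function satisfies the mex recursion. -/

namespace Pool.Agent.Helper522.Oct

variable {U : ℕ → ℕ → Prop}

theorem chkCov_spec {i t X : ℕ} (hi : i < 7) (ht : t < 2) (hX : X < x i) :
    ∃ r m ya yb, r ∈ R2L ∧ r % 2 = 1 ∧ safe ya = true ∧ ya < 80 ∧ safe yb = true ∧ yb < 80 ∧
      1 ≤ m ∧ m + X < 256 ∧ m &&& X = 0 ∧
      r + ya + yb + 160 * m = (255 - x i) * 80 + y i + t := by
  have H := all_spec (all_spec (all_spec chkCov_true i hi) t ht) X hX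
  rw [List.any_eq_true] at H
  obtain ⟨w, hw, hf⟩ := H
  obtain ⟨w1, w2, w3, w4⟩ := W_spec w hw
  unfold covTest at hf
  simp only [Bool.and_eq_true, Nat.blt_eq, beqT, Nat.ble_eq] at hf
  obtain ⟨⟨⟨⟨⟨f1, f2⟩, f3⟩, f4⟩, f5⟩, f6⟩ := hf
  exact ⟨w.1, ((255 - x i) * 80 + y i + t - w.1 - w.2) / 160, w.2,
    ((255 - x i) * 80 + y i + t - w.1 - w.2) % 160, w1, w2, w3, w4, f6, f5, f2, f3, f4, by omega⟩

theorem visSp14 {n q X i t : ℕ} (hi : i < 7) (ht : t < 2) (hX : X < x i)
    (hn : n = 20480 * q + 80 * X + 80 * (255 - x i) + (y i + t)) :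
    Opt (g U) n (2 * X + t) := by
  obtain ⟨r, m, ya, yb, a1, a2, a3, a4, a5, a6, a7, a8, a9, a10⟩ := chkCov_spec hi ht hX
  have hy := y_bd i hi
  have hx := x_bd i hi
  refine opt2 (a := 20480 * q + 80 * (X + m) + ya) (b := 20480 * 0 + 80 * m + yb) (r := r)
    (by omega) (by omega) (by omega) a1 ?_
  rw [g_safe a3 a4 (by omega), g_safe a5 a6 (by omega), xor_two (by omega) (by omega)]
  have h1 : m ^^^ X = m + X := add_eq_xor_of_and a9
  have h2 : (X + m) ^^^ m = X := by
    rw [add_comm X m, ← h1, Nat.xor_comm]
    rw [← Nat.xor_assoc, Nat.xor_self, Nat.zero_xor]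
  rw [h2]
  omega

theorem special_cols : ∀ i < 7, ∀ t < 2,
    sp8 255 (y i + t) = false ∧ (∀ d < 256, sp8 d (y i + t) = false) ∧
    (∀ d < 256, sp8 d (h i % 80 + t) = false) ∧
    (∀ d < 256, sp14 d (h i % 80 + t) = false) := by decide +kernel

theorem sp14_self {i t X : ℕ} (hi : i < 7) (ht : t < 2) (hX : X < x i) :
    sp14 (255 - X) (y i + t) = false := by
  by_contra hc
  rw [Bool.not_eq_false] at hc
  obtain ⟨j, hj, h1, h2⟩ := sp14_spec hc
  have hx := x_bd i hi
  have hx' := x_bd j hj
  have : X = x j := by omega
  have hs := s_sep i hi j hj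
  unfold s at hs
  rcases hs with rfl | hs | hs
  · omega
  · omega
  · omega

/-- coverage at active sites -/
theorem cover_on {n i t v : ℕ} (Hn : On U i t n) (hv : v < 2 * x i + t) : Opt (g U) n v := by
  obtain ⟨hi, ht, h1, -⟩ := Hn
  have hx := x_bd i hi
  have hy := y_bd i hi
  unfold s at h1
  have hn : n = 20480 * (n / 20480) + 20400 + (y i + t) := by omega
  by_cases h0 : v = 0 ∧ n / 20480 = 0
  · rw [h0.1]
    exact opt0 (by omega) (by omega) (by omega)
  · by_cases hp : v % 2 = t
    · have hX : v / 2 < x i := by omega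
      have h14 := sp14_self hi ht hX
      have h8 := (special_cols i hi t ht).2.1 (255 - v / 2) (by omega)
      have := visOpp (U := U) (n := n) (q := n / 20480) (X := v / 2) (d := 255 - v / 2)
        (z := y i + t) (by omega) (by omega) (by omega) (by omega) h14 h8 (by omega) (by omega)
      have e : 2 * (v / 2) + (y i + t + 1) % 2 = v := by omega
      rw [e] at this
      exact this
    · have := visSame (U := U) (n := n) (q := n / 20480) (X := v / 2) (d := 255 - v / 2)
        (z := y i + t) (by omega) (by omega) (by omega) (by omega) (by omega) (by omega)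
      have e : 2 * (v / 2) + (y i + t) % 2 = v := by omega
      rw [e] at this
      exact this

/-- coverage at regular positions -/
theorem cover_rg (hU : Sys U) {n v : ℕ} (Hn : Rg U n)
    (hv : v < 2 * (n % 20480 / 80) + n % 2) : Opt (g U) n v := by
  obtain ⟨q, X, z, en, hX, hz, fn⟩ := decomp n
  rw [fn] at hv
  by_cases h0 : v = 0 ∧ q = 0
  · rw [h0.1]
    exact opt0 (by omega) (by omega) (by omega)
  by_cases hp : v % 2 = n % 2
  · have := visSame (U := U) (n := n) (q := q) (X := v / 2) (d := X - v / 2)
      (z := z) (by omega) (by omega) (by omega) (by omega) (by omega) (by omega)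
    have e : 2 * (v / 2) + z % 2 = v := by omega
    rw [e] at this
    exact this
  · have e : 2 * (v / 2) + (z + 1) % 2 = v := by omega
    by_cases h14 : sp14 (X - v / 2) z = true
    · obtain ⟨i, hi, h1, h2⟩ := sp14_spec h14
      have hx := x_bd i hi
      have hy := y_bd i hi
      obtain ⟨t, ht, hzt⟩ : ∃ t < 2, z = y i + t := by
        rcases h2 with h2 | h2
        · exact ⟨0, by omega, by omega⟩
        · exact ⟨1, by omega, by omega⟩
      by_cases hX' : X < 255
      · have := visSp14 (U := U) (n := n) (q := q) (X := v / 2) (i := i) (t := t) hi ht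
          (by omega) (by omega)
        have e' : 2 * (v / 2) + t = v := by omega
        rw [e'] at this
        exact this
      · -- the site is switched off
        have hX2 : X = 255 := by omega
        subst hX2
        have hoff : ¬ U i q := by
          intro hc
          apply Hn.1 i t
          refine ⟨hi, ht, ?_, ?_⟩
          · unfold s; omega
          · have : n / 20480 = q := by omega
            rw [this]; exact hc
        rw [hU i hi q, not_not] at hoff
        obtain ⟨v', w', u1, u2, u3⟩ := hoff
        have hj : (i + 3) % 7 < 7 := Nat.mod_lt _ (by omega)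
        have hk : (i + 2) % 7 < 7 := Nat.mod_lt _ (by omega)
        have hr := rel_eq i hi
        have hyj := y_bd _ hj
        have hyk := y_bd _ hk
        refine opt2 (a := 20480 * v' + (s ((i + 3) % 7) + t))
          (b := 20480 * w' + (s ((i + 2) % 7) + 0)) (r := rel i) (by unfold s; omega)
          (by unfold s; omega) ?_ (rel_mem i hi) ?_
        · unfold s at *; omega
        · rw [g_on (i := (i + 3) % 7) (t := t) ⟨hj, ht, ?_, ?_⟩,
            g_on (i := (i + 2) % 7) (t := 0) ⟨hk, by omega, ?_, ?_⟩]
          · rw [xor_two ht (by omega)]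
            have := x_rel i hi
            change x ((i + 3) % 7) ^^^ x ((i + 2) % 7) = x i at this
            rw [this]
            omega
          · unfold s; omega
          · have : (20480 * w' + (s ((i + 2) % 7) + 0)) / 20480 = w' := by unfold s; omega
            rw [this]; exact u2
          · unfold s; omega
          · have : (20480 * v' + (s ((i + 3) % 7) + t)) / 20480 = v' := by unfold s; omega
            rw [this]; exact u1
    · rw [Bool.not_eq_true] at h14
      by_cases h8 : sp8 (X - v / 2) z = true
      · have := visSp8 (U := U) (n := n) (q := q) (X := v / 2) (d := X - v / 2) (z := z)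
          (by omega) (by omega) h8 (by omega)
        rw [e] at this
        exact this
      · rw [Bool.not_eq_true] at h8
        have := visOpp (U := U) (n := n) (q := q) (X := v / 2) (d := X - v / 2)
          (z := z) (by omega) (by omega) (by omega) (by omega) h14 h8 (by omega) (by omega)
        rw [e] at this
        exact this

/-- coverage at markers -/
theorem cover_hh {n i t v : ℕ} (Hn : Hh U i t n) (hv : v < 512 + t) : Opt (g U) n v := by
  obtain ⟨hi, ht, h1, h2, h3⟩ := Hn
  have hx := x_bd i hi
  have hy := y_bd i hi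
  have hh := h_bd i hi
  obtain ⟨-, -, sp1, sp2⟩ := special_cols i hi t ht
  have hn : n = 20480 * (n / 20480) + 80 * x i + (h i % 80 + t) := by omega
  have hz : h i % 80 + t < 80 := by omega
  have hpar : (h i % 80 + t) % 2 = t := by omega
  by_cases h512 : v = 512
  · refine opt1 (a := n - 1) (by omega) (by omega) R1b_one ?_
    rw [g_hh (i := i) (t := 0) ⟨hi, by omega, by omega, by omega, ?_⟩]
    · omega
    · have : (n - 1) / 20480 = n / 20480 := by omega
      rw [this]; exact h3
  have hv2 : v / 2 < 256 := by omega
  by_cases hp : v % 2 = t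
  · have e : 2 * (v / 2) + (h i % 80 + t) % 2 = v := by omega
    rcases lt_trichotomy (v / 2) (x i) with hlt | heq | hgt
    · have := visSame (U := U) (n := n) (q := n / 20480) (X := v / 2) (d := x i - v / 2)
        (z := h i % 80 + t) (by omega) hv2 (by omega) (by omega) hz (by omega)
      rw [e] at this
      exact this
    · have hr := r0_eq i hi
      refine opt1 (a := 20480 * (n / 20480 - 1) + (s i + t)) (by unfold s; omega)
        (by omega) (r0_R1 i hi) ?_
      rw [g_on (i := i) (t := t) ⟨hi, ht, ?_, ?_⟩]
      · omega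
      · unfold s; omega
      · have : (20480 * (n / 20480 - 1) + (s i + t)) / 20480 = n / 20480 - 1 := by
          unfold s; omega
        rw [this]; exact h3
    · have := visSame (U := U) (n := n) (q := n / 20480 - 1) (X := v / 2)
        (d := 256 + x i - v / 2)
        (z := h i % 80 + t) (by omega) hv2 (by omega) (by omega) hz (by omega)
      rw [e] at this
      exact this
  · have e : 2 * (v / 2) + (h i % 80 + t + 1) % 2 = v := by omega
    by_cases hle : v / 2 ≤ x i
    · have := visOpp (U := U) (n := n) (q := n / 20480) (X := v / 2) (d := x i - v / 2)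
        (z := h i % 80 + t) (by omega) hv2 (by omega) hz (sp2 _ (by omega)) (sp1 _ (by omega))
        (by omega) (by omega)
      rw [e] at this
      exact this
    · have := visOpp (U := U) (n := n) (q := n / 20480 - 1) (X := v / 2)
        (d := 256 + x i - v / 2)
        (z := h i % 80 + t) (by omega) hv2 (by omega) hz (sp2 _ (by omega)) (sp1 _ (by omega))
        (by omega) (by omega)
      rw [e] at this
      exact this

/-- the Grundy recursion -/
theorem g_rec (hU : Sys U) (n : ℕ) : g U n = sInf {v : ℕ | ¬ Opt (g U) n v} := by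
  have hnot : g U n ∈ {v : ℕ | ¬ Opt (g U) n v} := by
    intro ⟨r, hr1, hrn, H⟩
    rcases H with ⟨hm, rfl, hv⟩ | ⟨hm, hlt, hv⟩ | ⟨hm, a, b, ha, hb, hab, hv⟩
    · rw [mem0] at hm
      rcases trich U r with ⟨i, t, Ha⟩ | ⟨i, t, Ha⟩ | Ha
      · rw [g_on Ha] at hv
        have := x_bd i Ha.1
        omega
      · rw [g_hh Ha] at hv
        omega
      · rw [g_rg Ha] at hv
        omega
    · rw [mem1] at hm
      exact excl1 hm (by omega : n - r + r = n) hv.symm
    · rw [mem2] at hm
      exact excl2 hU hm hab hv.symm
  have hle : ∀ v ∈ {v : ℕ | ¬ Opt (g U) n v}, g U n ≤ v := by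
    intro v hv
    by_contra hlt
    push Not at hlt
    apply hv
    rcases trich U n with ⟨i, t, Ha⟩ | ⟨i, t, Ha⟩ | Ha
    · rw [g_on Ha] at hlt
      exact cover_on Ha hlt
    · rw [g_hh Ha] at hlt
      exact cover_hh Ha hlt
    · rw [g_rg Ha] at hlt
      exact cover_rg hU Ha hlt
  exact le_antisymm (hle _ (Nat.sInf_mem ⟨_, hnot⟩)) (Nat.sInf_le hnot)

end Pool.Agent.Helper522.Oct
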